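import Pool.Agent.Work.MP_086a47_lc.PBFinal
import Pool.Agent.Work.MP_086a47_lc.FK7
import Pool.Agent.Work.MP_086a47_lc.DAFin

/-!
# The wake-up ratio of the Euclidean plane is `1 + 2 √2`

An awake robot at the origin of the Euclidean plane and `n ≥ 1` sleeping robots in the closed unit
disk: there is always a wake-up tree of makespan at most `1 + 2 √2`, and for the four vertices of
an inscribed square every wake-up tree has makespan at least `1 + 2 √2`.

The proof is computer assisted, all tables are checked in the kernel.  Let `r` be the distance of
the nearest robot.

* `r ≥ 0.89`: if all angular gaps are large, four robots share the two sides of any robot; else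
  the closest angular pair is taken first and a one-variable recursion on the angle is used.
* `r ≤ 0.89`: the awake robot goes to the nearest robot, the line through it and the origin splits
  the rest, and one robot serves each half annulus by an elimination strategy on cells
  (certificates for 17 intervals of `r`); its leaves use the flat lemma: two robots standing
  together on the left side of an `a × b` rectangle serve every finite set of robots in it within
  time `a + 5 b / 4`.
-/

set_option autoImplicit false

namespace Pool.Agent.Results.MP_086a47_lc.WakeUpRatio

open FreezeTag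

theorem result :
    (∀ (n : ℕ) (x : Fin n → Plane), 1 ≤ n → (∀ i, ‖x i‖ ≤ 1) →
      ∃ t : WTree (Fin n), t.Spanning ∧ makespan x 0 t ≤ 1 + 2 * Real.sqrt 2) ∧
    (∃ x : Fin 4 → Plane, (∀ i, ‖x i‖ = 1) ∧
      ∀ t : WTree (Fin 4), t.Spanning → 1 + 2 * Real.sqrt 2 ≤ makespan x 0 t) ∧
    gamma = 1 + 2 * Real.sqrt 2 := by
  obtain ⟨h1, h2, -, h4⟩ := main_of_flat FK.flatK54 partB
  exact ⟨h1, ⟨square, square_norm, h2⟩, h4⟩

end Pool.Agent.Results.MP_086a47_lc.WakeUpRatio
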